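import Mathlib
set_option autoImplicit false
namespace Pool.Agent.H.MP_d7b81d_co
open Finset Module Submodule

theorem union2 {α : Type*} [DecidableEq α] (E : Finset α) : ∀ r1 r2 : Finset α → ℤ,
    (∀ S T, r1 (S ∪ T) + r1 (S ∩ T) ≤ r1 S + r1 T) →
    (∀ S T, r2 (S ∪ T) + r2 (S ∩ T) ≤ r2 S + r2 T) →
    r1 ∅ = 0 → r2 ∅ = 0 →
    (∀ x S, r1 (insert x S) ≤ r1 S + 1) → (∀ x S, r2 (insert x S) ≤ r2 S + 1) →
    (∀ S ⊆ E, (S.card : ℤ) ≤ r1 S + r2 S) →
    ∃ A B : Finset α, A ∪ B = E ∧ Disjoint A B ∧ (A.card : ℤ) ≤ r1 A ∧ (B.card : ℤ) ≤ r2 B := by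
  induction E using Finset.induction_on with
  | empty =>
    intro r1 r2 _ _ h1 h2 _ _ _
    exact ⟨∅, ∅, by simp, by simp, by simp [h1], by simp [h2]⟩
  | insert e E he ih =>
    intro r1 r2 s1 s2 z1 z2 u1 u2 h
    have key : ∀ r : Finset α → ℤ, (∀ S T, r (S ∪ T) + r (S ∩ T) ≤ r S + r T) →
        ∀ S T, r (insert e (S ∪ T)) - 1 + (r (insert e (S ∩ T)) - 1) ≤
          r (insert e S) - 1 + (r (insert e T) - 1) := by
      intro r s S T
      have := s (insert e S) (insert e T)
      have a1 : insert e S ∪ insert e T = insert e (S ∪ T) := by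
        ext x; simp only [mem_union, mem_insert]; tauto
      have a2 : insert e S ∩ insert e T = insert e (S ∩ T) := by
        ext x; simp only [mem_inter, mem_insert]; tauto
      rw [a1, a2] at this; linarith
    have key2 : ∀ r : Finset α → ℤ, (∀ x S, r (insert x S) ≤ r S + 1) →
        ∀ x S, r (insert e (insert x S)) - 1 ≤ r (insert e S) - 1 + 1 := by
      intro r u x S
      rw [Finset.insert_comm]; have := u x (insert e S); linarith
    by_cases c1 : ∀ S ⊆ E, (S.card : ℤ) ≤ (r1 (insert e S) - 1) + r2 S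
    · have z : r1 (insert e ∅) - 1 = 0 := by
        have a := c1 ∅ (empty_subset _)
        have b := u1 e ∅
        simp only [card_empty, Nat.cast_zero] at a
        linarith
      obtain ⟨A, B, hAB, hd, hA, hB⟩ := ih (fun S => r1 (insert e S) - 1) r2 (key r1 s1) s2 z z2
        (key2 r1 u1) u2 c1
      have eA : e ∉ A := fun hh => he (hAB ▸ mem_union_left _ hh)
      have eB : e ∉ B := fun hh => he (hAB ▸ mem_union_right _ hh)
      refine ⟨insert e A, B, by rw [insert_union, hAB], by simp [eB, hd], ?_, hB⟩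
      rw [card_insert_of_notMem eA]; push_cast; linarith
    by_cases c2 : ∀ S ⊆ E, (S.card : ℤ) ≤ r1 S + (r2 (insert e S) - 1)
    · have z : r2 (insert e ∅) - 1 = 0 := by
        have a := c2 ∅ (empty_subset _)
        have b := u2 e ∅
        simp only [card_empty, Nat.cast_zero] at a
        linarith
      obtain ⟨A, B, hAB, hd, hA, hB⟩ := ih r1 (fun S => r2 (insert e S) - 1) s1 (key r2 s2) z1 z
        u1 (key2 r2 u2) c2
      have eA : e ∉ A := fun hh => he (hAB ▸ mem_union_left _ hh)
      have eB : e ∉ B := fun hh => he (hAB ▸ mem_union_right _ hh)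
      refine ⟨A, insert e B, by rw [union_insert, hAB], by simp [eA, hd], hA, ?_⟩
      rw [card_insert_of_notMem eB]; push_cast; linarith
    exfalso
    push Not at c1 c2
    obtain ⟨S, hS, c1⟩ := c1
    obtain ⟨T, hT, c2⟩ := c2
    have eS : e ∉ S := fun hh => he (hS hh)
    have eT : e ∉ T := fun hh => he (hT hh)
    have b1 := s1 (insert e S) T
    have b2 := s2 S (insert e T)
    have a1 : insert e S ∪ T = insert e (S ∪ T) := by rw [insert_union]
    have a2 : insert e S ∩ T = S ∩ T := insert_inter_of_notMem eT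
    have a3 : S ∪ insert e T = insert e (S ∪ T) := by rw [union_insert]
    have a4 : S ∩ insert e T = S ∩ T := inter_insert_of_notMem eS
    rw [a1, a2] at b1
    rw [a3, a4] at b2
    have d1 := h (insert e (S ∪ T)) (insert_subset_insert _ (union_subset hS hT))
    have d2 := h (S ∩ T) ((inter_subset_left.trans hS).trans (subset_insert _ _))
    have eST : e ∉ S ∪ T := by simp [eS, eT]
    rw [card_insert_of_notMem eST] at d1
    have d3 : ((S ∪ T).card : ℤ) + (S ∩ T).card = S.card + T.card := by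
      exact_mod_cast card_union_add_card_inter S T
    push_cast at d1
    linarith

section lin
variable {α : Type*} [DecidableEq α] {W : Type*} [AddCommGroup W] [Module ℝ W]
  [FiniteDimensional ℝ W] (u : α → W)

noncomputable def sp (T : Finset α) : Submodule ℝ W := span ℝ (u '' (T : Set α))
noncomputable def rk (T : Finset α) : ℕ := finrank ℝ (sp u T)

omit [DecidableEq α] [FiniteDimensional ℝ W] in
theorem sp_mono {S T : Finset α} (h : S ⊆ T) : sp u S ≤ sp u T :=
  span_mono (Set.image_mono (by exact_mod_cast h))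

omit [DecidableEq α] [FiniteDimensional ℝ W] in
theorem mem_sp {T : Finset α} {x : α} (h : x ∈ T) : u x ∈ sp u T :=
  subset_span ⟨x, h, rfl⟩

omit [FiniteDimensional ℝ W] in
theorem sp_union (S T : Finset α) : sp u (S ∪ T) = sp u S ⊔ sp u T := by
  unfold sp; rw [coe_union, Set.image_union, span_union]

omit [DecidableEq α] in
theorem rk_mono {S T : Finset α} (h : S ⊆ T) : rk u S ≤ rk u T :=
  Submodule.finrank_mono (sp_mono u h)

theorem rk_sub (S T : Finset α) : rk u (S ∪ T) + rk u (S ∩ T) ≤ rk u S + rk u T := by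
  have a := Submodule.finrank_sup_add_finrank_inf_eq (sp u S) (sp u T)
  have b : rk u (S ∩ T) ≤ finrank ℝ (sp u S ⊓ sp u T : Submodule ℝ W) :=
    Submodule.finrank_mono (le_inf (sp_mono u inter_subset_left) (sp_mono u inter_subset_right))
  unfold rk at *
  rw [sp_union]; omega

omit [DecidableEq α] [FiniteDimensional ℝ W] in
theorem rk_le (S : Finset α) : rk u S ≤ S.card := by
  classical
  have a := finrank_span_finset_le_card (R := ℝ) (S.image u)
  unfold rk sp
  unfold Set.finrank at a
  rw [coe_image] at a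
  exact a.trans card_image_le

theorem rk_ins (x : α) (S : Finset α) : rk u (insert x S) ≤ rk u S + 1 := by
  have a := rk_sub u {x} S
  have b := rk_le u {x}
  rw [← insert_eq] at a
  simp at b; omega

omit [DecidableEq α] [FiniteDimensional ℝ W] in
theorem mem_sp_iff {T : Finset α} {w : W} : w ∈ sp u T ↔ ∃ c : α → ℝ, ∑ x ∈ T, c x • u x = w := by
  unfold sp
  exact Submodule.mem_span_image_finset_iff_exists_fun' ℝ

omit [FiniteDimensional ℝ W] in
theorem sp_ins_of_mem {T : Finset α} {x : α} (h : u x ∈ sp u T) : sp u (insert x T) = sp u T := by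
  apply le_antisymm _ (sp_mono u (subset_insert _ _))
  unfold sp
  rw [span_le]
  rintro _ ⟨y, hy, rfl⟩
  rcases mem_insert.1 hy with rfl | hy
  · exact h
  · exact subset_span ⟨y, hy, rfl⟩

omit [FiniteDimensional ℝ W] in
theorem not_mem_of_rk {B : Finset α} (hB : B.card ≤ rk u B) {x : α} (hx : x ∈ B) :
    u x ∉ sp u (B.erase x) := by
  intro h
  have a := sp_ins_of_mem u h
  rw [insert_erase hx] at a
  have b := rk_le u (B.erase x)
  have c := card_erase_add_one hx
  unfold rk at *
  rw [a] at hB; omega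

omit [DecidableEq α] [FiniteDimensional ℝ W] in
theorem ex_fun {I : Finset α} {x : α} (h : u x ∉ sp u I) :
    ∃ f : W →ₗ[ℝ] ℝ, f (u x) = 1 ∧ ∀ y ∈ I, f (u y) = 0 := by
  obtain ⟨f, h1, h2⟩ := Submodule.exists_dual_map_eq_bot_of_notMem h inferInstance
  refine ⟨(f (u x))⁻¹ • f, by simp [inv_mul_cancel₀ h1], fun y hy => ?_⟩
  have : f (u y) ∈ (sp u I).map f := mem_map_of_mem (mem_sp u hy)
  rw [h2] at this
  simp at this; simp [this]

omit [FiniteDimensional ℝ W] in
theorem ker_fun {I : Finset α} {x : α} (hx : x ∉ I) (f : W →ₗ[ℝ] ℝ) (h1 : f (u x) ≠ 0)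
    (h2 : ∀ y ∈ I, f (u y) = 0) {w : W} (hw : w ∈ sp u (insert x I)) (h0 : f w = 0) :
    w ∈ sp u I := by
  obtain ⟨c, rfl⟩ := (mem_sp_iff u).1 hw
  rw [sum_insert hx] at h0 ⊢
  have : ∑ y ∈ I, c y * f (u y) = 0 := sum_eq_zero fun y hy => by rw [h2 y hy, mul_zero]
  simp only [map_add, map_smul, map_sum, smul_eq_mul, this, add_zero] at h0
  have hc : c x = 0 := (mul_eq_zero.1 h0).resolve_right h1
  rw [hc, zero_smul, zero_add]
  exact (mem_sp_iff u).2 ⟨c, rfl⟩

omit [FiniteDimensional ℝ W] in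
theorem pos_comb (A : Finset α) (f : W →ₗ[ℝ] ℝ) {a b : α} (ha : a ∈ A) (hb : b ∈ A)
    (h1 : 0 < f (u a)) (h2 : f (u b) < 0) :
    ∃ m : α → ℝ, (∀ x ∈ A, 0 < m x) ∧ f (∑ x ∈ A, m x • u x) = 0 := by
  have gen : ∀ z ∈ A, ∀ t : ℝ, f (∑ x ∈ A, (1 + if x = z then t else 0) • u x) =
      f (∑ x ∈ A, u x) + t * f (u z) := by
    intro z hz t
    simp only [add_smul, one_smul, sum_add_distrib, map_add, ite_smul, zero_smul]
    rw [sum_ite_eq' A z (fun x => t • u x), if_pos hz, map_smul, smul_eq_mul]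
  rcases le_total 0 (f (∑ x ∈ A, u x)) with h | h
  · refine ⟨fun x => 1 + if x = b then f (∑ x ∈ A, u x) / (- f (u b)) else 0, fun x _ => ?_, ?_⟩
    · have : 0 ≤ f (∑ x ∈ A, u x) / (- f (u b)) := div_nonneg h (by linarith)
      dsimp only; split_ifs <;> linarith
    · rw [gen b hb]; field_simp [h2.ne]; ring
  · refine ⟨fun x => 1 + if x = a then (- f (∑ x ∈ A, u x)) / (f (u a)) else 0, fun x _ => ?_, ?_⟩
    · have : 0 ≤ (- f (∑ x ∈ A, u x)) / (f (u a)) := div_nonneg (by linarith) h1.le
      dsimp only; split_ifs <;> linarith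
    · rw [gen a ha]; field_simp [h1.ne']; ring

omit [FiniteDimensional ℝ W] in
theorem core (I J : Finset α) (e : α) (eI : e ∉ I) (eJ : e ∉ J) (hd : Disjoint I J)
    (hI : (insert e I).card ≤ rk u (insert e I)) (hJ : (insert e J).card ≤ rk u (insert e J))
    (hs : sp u (insert e I) = sp u (insert e J)) (he : u e ∈ sp u (I ∪ J)) :
    ∃ A K : Finset α, A ⊆ insert e (I ∪ J) ∧ K ⊆ insert e (I ∪ J) ∧ Disjoint A K ∧ A.Nonempty ∧
      (∀ x ∈ K, u x ∈ sp u A) ∧ ∃ m : α → ℝ, (∀ x ∈ A, 0 < m x) ∧
        ∑ x ∈ A, m x • u x ∈ sp u K := by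
  have e1 : u e ∉ sp u I := by
    have := not_mem_of_rk u hI (mem_insert_self e I)
    rwa [erase_insert eI] at this
  obtain ⟨g, g1, g0⟩ := ex_fun u e1
  have sub1 : insert e J ⊆ insert e (I ∪ J) := insert_subset_insert _ subset_union_right
  have sub2 : I ⊆ insert e (I ∪ J) := subset_union_left.trans (subset_insert _ _)
  by_cases c1 : ∃ x ∈ insert e J, g (u x) < 0
  · obtain ⟨x, hx, hx0⟩ := c1
    obtain ⟨m, m0, m1⟩ := pos_comb u (insert e J) g (mem_insert_self e J) hx (by rw [g1]; norm_num) hx0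
    refine ⟨insert e J, I, sub1, sub2, ?_, insert_nonempty _ _, fun y hy => ?_, m, m0, ?_⟩
    · simp [eI, hd.symm]
    · rw [← hs]; exact mem_sp u (mem_insert_of_mem hy)
    · refine ker_fun u eI g (by rw [g1]; norm_num) g0 ?_ m1
      rw [hs]; exact (mem_sp_iff u).2 ⟨m, rfl⟩
  push Not at c1
  have hh : ∀ x ∈ insert e J, ∃ f : W →ₗ[ℝ] ℝ, f (u x) = 1 ∧ ∀ y ∈ (insert e J).erase x, f (u y) = 0 :=
    fun x hx => ex_fun u (not_mem_of_rk u hJ hx)
  choose! h h1 h0 using hh
  by_cases c2 : ∃ x ∈ insert e J, 0 < g (u x) ∧ ∃ y ∈ I, h x (u y) < 0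
  · obtain ⟨x, hx, gx, y, hy, hy0⟩ := c2
    have xI : x ∉ I := fun hh => by rw [g0 x hh] at gx; exact lt_irrefl _ gx
    obtain ⟨m, m0, m1⟩ := pos_comb u (insert x I) (h x) (mem_insert_self x I) (mem_insert_of_mem hy)
      (by rw [h1 x hx]; norm_num) hy0
    have le1 : sp u (insert x I) ≤ sp u (insert e J) := by
      unfold sp; rw [span_le]
      rintro _ ⟨z, hz, rfl⟩
      rcases mem_insert.1 hz with rfl | hz
      · exact mem_sp u hx
      · have : u z ∈ sp u (insert e J) := by rw [← hs]; exact mem_sp u (mem_insert_of_mem hz)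
        exact this
    have ee : u e ∈ sp u (insert x I) := by
      have t1 : u x - g (u x) • u e ∈ sp u I := by
        refine ker_fun u eI g (by rw [g1]; norm_num) g0 ?_ (by simp [g1])
        refine sub_mem ?_ (smul_mem _ _ (mem_sp u (mem_insert_self _ _)))
        rw [hs]; exact mem_sp u hx
      have t2 : u e = (g (u x))⁻¹ • (u x - (u x - g (u x) • u e)) := by
        rw [sub_sub_cancel, smul_smul, inv_mul_cancel₀ gx.ne', one_smul]
      rw [t2]
      exact smul_mem _ _ (sub_mem (mem_sp u (mem_insert_self _ _))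
        (sp_mono u (subset_insert _ _) t1))
    have le2 : sp u (insert e I) ≤ sp u (insert x I) := by
      unfold sp; rw [span_le]
      rintro _ ⟨z, hz, rfl⟩
      rcases mem_insert.1 hz with rfl | hz
      · exact ee
      · exact mem_sp u (mem_insert_of_mem hz)
    refine ⟨insert x I, (insert e J).erase x, insert_subset (sub1 hx) sub2,
      (erase_subset _ _).trans sub1, ?_, insert_nonempty _ _, fun z hz => ?_, m, m0, ?_⟩
    · rw [disjoint_left]
      intro z hz hz'
      rcases mem_insert.1 hz with rfl | hz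
      · exact notMem_erase _ _ hz'
      · rcases mem_insert.1 (mem_of_mem_erase hz') with rfl | hz''
        · exact eI hz
        · exact disjoint_left.1 hd hz hz''
    · apply le2; rw [hs]; exact mem_sp u (mem_of_mem_erase hz)
    · refine ker_fun u (notMem_erase x _) (h x) (by rw [h1 x hx]; norm_num) (h0 x hx) ?_ m1
      rw [insert_erase hx]; exact le1 ((mem_sp_iff u).2 ⟨m, rfl⟩)
  exfalso
  push Not at c2
  have z : ∀ y ∈ I, h e (u y) = 0 := by
    intro y hy
    have hy' : u y ∈ sp u (insert e J) := by rw [← hs]; exact mem_sp u (mem_insert_of_mem hy)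
    obtain ⟨c, hc⟩ := (mem_sp_iff u).1 hy'
    have cx : ∀ x ∈ insert e J, h x (u y) = c x := by
      intro x hx
      rw [← hc, map_sum, ← add_sum_erase _ _ hx, map_smul, h1 x hx, sum_eq_zero]
      · simp
      · intro z hz; rw [map_smul, h0 x hx z hz]; simp
    have s0 : ∑ x ∈ insert e J, c x * g (u x) = 0 := by
      have := g0 y hy
      rw [← hc, map_sum] at this
      simpa using this
    have nn : ∀ x ∈ insert e J, 0 ≤ c x * g (u x) := by
      intro x hx
      rcases (c1 x hx).eq_or_lt with q | q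
      · rw [← q]; simp
      · rw [← cx x hx]; exact mul_nonneg (c2 x hx q y hy) q.le
    have := (sum_eq_zero_iff_of_nonneg nn).1 s0 e (mem_insert_self _ _)
    rw [g1, mul_one] at this
    rw [cx e (mem_insert_self _ _), this]
  obtain ⟨c, hc⟩ := (mem_sp_iff u).1 he
  have := h1 e (mem_insert_self _ _)
  rw [← hc, map_sum, sum_eq_zero] at this
  · exact zero_ne_one this
  · intro y hy
    rw [map_smul]
    rcases mem_union.1 hy with hy | hy
    · rw [z y hy]; simp
    · rw [h0 e (mem_insert_self _ _) y (by rw [erase_insert eJ]; exact hy)]; simp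

theorem main (S : Finset α) (h2 : ∀ F : Finset α, F ⊆ S → F.card = 2 → 2 ≤ rk u F)
    (h1 : ∀ x, 1 ≤ rk u {x}) (hS : 2 ≤ S.card) (hr : 2 * rk u S ≤ S.card + 1) :
    ∃ A K : Finset α, A ⊆ S ∧ K ⊆ S ∧ Disjoint A K ∧ A.Nonempty ∧
      (∀ x ∈ K, u x ∈ sp u A) ∧ ∃ m : α → ℝ, (∀ x ∈ A, 0 < m x) ∧
        ∑ x ∈ A, m x • u x ∈ sp u K := by
  obtain ⟨F, hF, hmin⟩ := exists_min_image
    (S.powerset.filter fun F => 2 ≤ F.card ∧ 2 * rk u F ≤ F.card + 1) card
    ⟨S, by simp [hS, hr]⟩
  simp only [mem_filter, mem_powerset] at hF hmin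
  obtain ⟨FS, F2, Fr⟩ := hF
  have F3 : 3 ≤ F.card := by
    by_contra q
    have := h2 F FS (by omega); omega
  have small : ∀ G ⊆ F, G.card < F.card → 2 ≤ G.card → G.card + 2 ≤ 2 * rk u G := by
    intro G hG q1 q2
    by_contra q
    have := hmin G ⟨hG.trans FS, q2, by omega⟩
    omega
  obtain ⟨e, he⟩ : F.Nonempty := card_pos.1 (by omega)
  have ce := card_erase_add_one he
  have s1 := small (F.erase e) (erase_subset _ _) (by omega) (by omega)
  have s2 := rk_mono u (erase_subset e F)
  have r1 : rk u {e} = 1 := le_antisymm (by simpa using rk_le u {e}) (h1 e)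
  have sb : ∀ S T : Finset α, ((rk u (insert e (S ∪ T)) : ℤ) - 1) + ((rk u (insert e (S ∩ T)) : ℤ) - 1) ≤
      ((rk u (insert e S) : ℤ) - 1) + ((rk u (insert e T) : ℤ) - 1) := by
    intro S T
    have := rk_sub u (insert e S) (insert e T)
    have a1 : insert e S ∪ insert e T = insert e (S ∪ T) := by
      ext x; simp only [mem_union, mem_insert]; tauto
    have a2 : insert e S ∩ insert e T = insert e (S ∩ T) := by
      ext x; simp only [mem_inter, mem_insert]; tauto
    rw [a1, a2] at this; omega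
  have z : (rk u (insert e ∅) : ℤ) - 1 = 0 := by simp [r1]
  have ui : ∀ x (S : Finset α), (rk u (insert e (insert x S)) : ℤ) - 1 ≤ ((rk u (insert e S) : ℤ) - 1) + 1 := by
    intro x S
    rw [Finset.insert_comm]; have := rk_ins u x (insert e S); omega
  obtain ⟨I, J, hIJ, hd, hI, hJ⟩ := union2 (F.erase e) (fun T => (rk u (insert e T) : ℤ) - 1)
    (fun T => (rk u (insert e T) : ℤ) - 1) sb sb z z ui ui (by
      intro T hT
      have eT : e ∉ T := fun q => notMem_erase e F (hT q)
      have c := card_insert_of_notMem eT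
      have sub : insert e T ⊆ F := insert_subset he (hT.trans (erase_subset _ _))
      by_cases q0 : T = ∅
      · subst q0; simp [r1]
      have q1 : 0 < T.card := card_pos.2 (nonempty_iff_ne_empty.2 q0)
      by_cases q : (insert e T).card < F.card
      · have := small _ sub q (by omega); omega
      · have := eq_of_subset_of_card_le sub (by omega)
        rw [this] at c ⊢; omega)
  have eI : e ∉ I := fun q => notMem_erase e F (hIJ ▸ mem_union_left _ q)
  have eJ : e ∉ J := fun q => notMem_erase e F (hIJ ▸ mem_union_right _ q)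
  have cIJ : I.card + J.card = (F.erase e).card := by rw [← hIJ, card_union_of_disjoint hd]
  have FF : insert e (I ∪ J) = F := by rw [hIJ, insert_erase he]
  have sI : insert e I ⊆ F := FF ▸ insert_subset_insert _ subset_union_left
  have sJ : insert e J ⊆ F := FF ▸ insert_subset_insert _ subset_union_right
  have mI := rk_mono u sI
  have mJ := rk_mono u sJ
  have qI : sp u (insert e I) = sp u F :=
    Submodule.eq_of_le_of_finrank_le (sp_mono u sI) (by unfold rk at *; omega)
  have qJ : sp u (insert e J) = sp u F :=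
    Submodule.eq_of_le_of_finrank_le (sp_mono u sJ) (by unfold rk at *; omega)
  have qE : sp u (F.erase e) = sp u F :=
    Submodule.eq_of_le_of_finrank_le (sp_mono u (erase_subset _ _)) (by unfold rk at *; omega)
  obtain ⟨A, K, a1, a2, a3⟩ := core u I J e eI eJ hd
    (by rw [card_insert_of_notMem eI]; omega) (by rw [card_insert_of_notMem eJ]; omega)
    (qI.trans qJ.symm) (by rw [hIJ, qE]; exact mem_sp u he)
  rw [FF] at a1 a2
  exact ⟨A, K, a1.trans FS, a2.trans FS, a3⟩

end lin
end Pool.Agent.H.MP_d7b81d_co
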