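import Pool.Agent.H.MP_d7b81d_co.A
set_option autoImplicit false
namespace Pool.Agent.H.MP_d7b81d_co
open Finset Module Submodule Topology

section geo
variable {V : Type*} [AddCommGroup V] [Module ℝ V]

theorem two {C : Set V} (hC : Convex ℝ C) (A N : Finset V) (w1 w2 : V → ℝ)
    (h1 : ∀ a ∈ A, 0 ≤ w1 a) (h2 : ∀ a ∈ N, 0 ≤ w2 a) (h : ∑ a ∈ A, w1 a + ∑ a ∈ N, w2 a = 1)
    (hA : ∀ a ∈ A, a ∈ C) (hN : ∀ a ∈ N, a ∈ C) :
    ∑ a ∈ A, w1 a • a + ∑ a ∈ N, w2 a • a ∈ C := by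
  have := hC.sum_mem (t := A.disjSum N) (w := Sum.elim w1 w2) (z := Sum.elim id id)
    (by rintro (a | a) ha
        · exact h1 a (by simpa using ha)
        · exact h2 a (by simpa using ha))
    (by rw [sum_disjSum]; simpa using h)
    (by rintro (a | a) ha
        · exact hA a (by simpa using ha)
        · exact hN a (by simpa using ha))
  rw [sum_disjSum] at this
  simpa using this

theorem geo [DecidableEq V] (S A K : Finset V) (hA : A ⊆ S) (hK : K ⊆ S) (hd : Disjoint A K)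
    (hne : A.Nonempty)
    (haff : ∀ x ∈ K, ∃ n : V → ℝ, ∑ a ∈ A, n a • a = x ∧ ∑ a ∈ A, n a = 1)
    (m l : V → ℝ) (m0 : ∀ a ∈ A, 0 < m a) (e1 : ∑ x ∈ K, l x • x = ∑ a ∈ A, m a • a)
    (e2 : ∑ x ∈ K, l x = ∑ a ∈ A, m a) :
    ∃ S₁ S₂ : Finset V, S₁ ∪ S₂ = S ∧ Disjoint S₁ S₂ ∧ S₁.Nonempty ∧ S₂.Nonempty ∧
      (convexHull ℝ (S₁ : Set V) ∩ convexHull ℝ (S₂ : Set V)).Nonempty ∧
      vectorSpan ℝ (convexHull ℝ (S₁ : Set V)) ≤
        vectorSpan ℝ (convexHull ℝ (S₁ : Set V) ∩ convexHull ℝ (S₂ : Set V)) := by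
  set P := K.filter fun x => 0 < l x with hP
  set N := K.filter fun x => ¬ 0 < l x with hN
  set L := ∑ x ∈ P, l x with hL
  have M0 : 0 < ∑ a ∈ A, m a := sum_pos m0 hne
  have N0 : ∀ x ∈ N, l x ≤ 0 := fun x hx => not_lt.1 (mem_filter.1 hx).2
  have P0 : ∀ x ∈ P, 0 < l x := fun x hx => (mem_filter.1 hx).2
  have sp1 : L + ∑ x ∈ N, l x = ∑ a ∈ A, m a := by
    rw [← e2, hL, hP, hN, sum_filter_add_sum_filter_not]
  have sp2 : ∑ x ∈ P, l x • x + ∑ x ∈ N, l x • x = ∑ a ∈ A, m a • a := by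
    rw [← e1, hP, hN, sum_filter_add_sum_filter_not]
  have L0 : 0 < L := by
    have := sum_nonpos N0; linarith
  have Pne : P.Nonempty := by
    by_contra q
    rw [not_nonempty_iff_eq_empty] at q
    rw [q] at hL; simp at hL; linarith
  have PK : P ⊆ K := filter_subset _ _
  have AS : ∀ a ∈ A, a ∈ S \ P := fun a ha =>
    mem_sdiff.2 ⟨hA ha, fun q => disjoint_left.1 hd ha (PK q)⟩
  have NS : ∀ a ∈ N, a ∈ S \ P := fun a ha =>
    mem_sdiff.2 ⟨hK (filter_subset _ _ ha), fun q => by have := N0 a ha; have := P0 a q; linarith⟩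
  set q : V := ∑ x ∈ P, (l x / L) • x with hq
  have q1 : q ∈ convexHull ℝ (P : Set V) :=
    (convex_convexHull ℝ _).sum_mem (fun x hx => div_nonneg (P0 x hx).le L0.le)
      (by rw [← sum_div, div_self L0.ne']) (fun x hx => subset_convexHull ℝ _ hx)
  have qe : q = L⁻¹ • (∑ a ∈ A, m a • a - ∑ x ∈ N, l x • x) := by
    rw [← sp2, add_sub_cancel_right, smul_sum]
    refine sum_congr rfl fun x _ => ?_
    rw [smul_smul, div_eq_inv_mul]
  have key : ∀ i ∈ P, ∀ n : V → ℝ, ∑ a ∈ A, n a • a = i → ∑ a ∈ A, n a = 1 → ∀ t : ℝ, 0 ≤ t → t ≤ 1 →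
      (∀ a ∈ A, 0 ≤ (1 - t) * (m a / L) + t * n a) →
      (1 - t) • q + t • i ∈ convexHull ℝ (P : Set V) ∩ convexHull ℝ ((S \ P : Finset V) : Set V) := by
    intro i hi n n1 n2 t t0 t1 ht
    refine ⟨(convex_convexHull ℝ _) q1 (subset_convexHull ℝ _ hi) (by linarith) t0 (by ring), ?_⟩
    have := two (convex_convexHull ℝ ((S \ P : Finset V) : Set V)) A N
      (fun a => (1 - t) * (m a / L) + t * n a) (fun x => (1 - t) * (- l x / L)) ht
      (fun x hx => mul_nonneg (by linarith) (div_nonneg (by have := N0 x hx; linarith) L0.le))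
      (by
        rw [sum_add_distrib, ← mul_sum, ← mul_sum, ← mul_sum, ← sum_div, ← sum_div, n2,
          sum_neg_distrib, ← sp1]
        field_simp; ring)
      (fun a ha => subset_convexHull ℝ _ (AS a ha)) (fun a ha => subset_convexHull ℝ _ (NS a ha))
    have e : (1 - t) • q + t • i = ∑ a ∈ A, ((1 - t) * (m a / L) + t * n a) • a +
        ∑ x ∈ N, ((1 - t) * (- l x / L)) • x := by
      have a1 : ∑ a ∈ A, ((1 - t) * (m a / L) + t * n a) • a =
          ((1 - t) * L⁻¹) • ∑ a ∈ A, m a • a + t • ∑ a ∈ A, n a • a := by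
        rw [smul_sum, smul_sum, ← sum_add_distrib]
        refine sum_congr rfl fun a _ => ?_
        rw [smul_smul, smul_smul, ← add_smul]; congr 1; ring
      have a2 : ∑ x ∈ N, ((1 - t) * (- l x / L)) • x = (-((1 - t) * L⁻¹)) • ∑ x ∈ N, l x • x := by
        rw [smul_sum]
        refine sum_congr rfl fun a _ => ?_
        rw [smul_smul]; congr 1; ring
      rw [a1, a2, n1, qe]; module
    rw [e]; exact this
  have qin : q ∈ convexHull ℝ (P : Set V) ∩ convexHull ℝ ((S \ P : Finset V) : Set V) := by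
    obtain ⟨i, hi⟩ := Pne
    obtain ⟨n, n1, n2⟩ := haff i (PK hi)
    have := key i hi n n1 n2 0 le_rfl zero_le_one (fun a ha => by
      have := div_pos (m0 a ha) L0; linarith)
    simpa using this
  refine ⟨P, S \ P, union_sdiff_of_subset (PK.trans hK), disjoint_sdiff, Pne,
    ⟨_, AS _ hne.choose_spec⟩, ⟨q, qin⟩, ?_⟩
  have dir : ∀ i ∈ P, i - q ∈ vectorSpan ℝ
      (convexHull ℝ (P : Set V) ∩ convexHull ℝ ((S \ P : Finset V) : Set V)) := by
    intro i hi
    obtain ⟨n, n1, n2⟩ := haff i (PK hi)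
    have ev : ∀ᶠ t in 𝓝 (0 : ℝ), ∀ a ∈ A, 0 ≤ (1 - t) * (m a / L) + t * n a := by
      rw [Filter.eventually_all_finset]
      intro a ha
      have c : Continuous fun t : ℝ => (1 - t) * (m a / L) + t * n a := by fun_prop
      have := c.continuousAt (x := 0) |>.eventually_const_lt (u := 0)
        (by have := div_pos (m0 a ha) L0; simpa using this)
      exact this.mono fun t ht => ht.le
    have ev2 : ∀ᶠ t in 𝓝[>] (0 : ℝ), t ∈ Set.Ioo (0 : ℝ) 1 := Ioo_mem_nhdsGT zero_lt_one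
    obtain ⟨t, ht, t0, t1⟩ := ((ev.filter_mono nhdsWithin_le_nhds).and ev2).exists
    have := vsub_mem_vectorSpan ℝ (key i hi n n1 n2 t t0.le t1.le ht) qin
    have e : i - q = t⁻¹ • (((1 - t) • q + t • i) -ᵥ q) := by
      rw [vsub_eq_sub]
      have : (1 - t) • q + t • i - q = t • (i - q) := by module
      rw [this, smul_smul, inv_mul_cancel₀ t0.ne', one_smul]
    rw [e]; exact smul_mem _ _ this
  rw [← direction_affineSpan, affineSpan_convexHull, direction_affineSpan, vectorSpan_def, span_le]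
  rintro _ ⟨i, hi, j, hj, rfl⟩
  have : i -ᵥ j = (i - q) - (j - q) := by simp
  show i -ᵥ j ∈ vectorSpan ℝ _
  rw [this]
  exact sub_mem (dir i hi) (dir j hj)

theorem fin [DecidableEq V] [FiniteDimensional ℝ V] (S : Finset V) (h1 : 2 ≤ S.card)
    (hS : 2 * finrank ℝ V + 1 ≤ S.card) :
    ∃ S₁ S₂ : Finset V, S₁ ∪ S₂ = S ∧ Disjoint S₁ S₂ ∧ S₁.Nonempty ∧ S₂.Nonempty ∧
      (convexHull ℝ (S₁ : Set V) ∩ convexHull ℝ (S₂ : Set V)).Nonempty ∧
      vectorSpan ℝ (convexHull ℝ (S₁ : Set V)) ≤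
        vectorSpan ℝ (convexHull ℝ (S₁ : Set V) ∩ convexHull ℝ (S₂ : Set V)) := by
  let u : V → V × ℝ := fun p => (p, 1)
  have r1 : ∀ x, 1 ≤ rk u {x} := by
    intro x
    have : sp u {x} ≠ ⊥ := by
      intro q
      have := mem_sp u (mem_singleton_self x)
      rw [q] at this
      simp [u] at this
    unfold rk
    exact Nat.one_le_iff_ne_zero.2 fun q => this (Submodule.finrank_eq_zero.1 q)
  have hs : ∀ (T : Finset V) (c : V → ℝ), ∑ x ∈ T, c x • u x = (∑ x ∈ T, c x • x, ∑ x ∈ T, c x) := by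
    intro T c
    ext
    · simp [u, Prod.fst_sum]
    · simp [u, Prod.snd_sum]
  obtain ⟨A, K, hA, hK, hd, hne, haff, m, m0, hm⟩ := main u S (by
    intro F _ hF
    obtain ⟨a, b, hab, rfl⟩ := card_eq_two.1 hF
    by_contra q
    have le : sp u {a} ≤ sp u {a, b} := sp_mono u (by simp)
    have := Submodule.eq_of_le_of_finrank_le le (by have := r1 a; unfold rk at *; omega)
    have hb : u b ∈ sp u {a} := by rw [this]; exact mem_sp u (by simp)
    obtain ⟨c, hc⟩ := (mem_sp_iff u).1 hb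
    rw [hs] at hc
    simp only [sum_singleton, u, Prod.mk.injEq] at hc
    rw [hc.2, one_smul] at hc
    exact hab hc.1) r1 h1 (by
    have : rk u S ≤ finrank ℝ (V × ℝ) := Submodule.finrank_le _
    rw [Module.finrank_prod, Module.finrank_self] at this
    omega)
  obtain ⟨l, hl⟩ := (mem_sp_iff u).1 hm
  rw [hs, hs, Prod.mk.injEq] at hl
  refine geo S A K hA hK hd hne (fun x hx => ?_) m l m0 hl.1 hl.2
  obtain ⟨n, hn⟩ := (mem_sp_iff u).1 (haff x hx)
  rw [hs] at hn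
  simp only [u, Prod.mk.injEq] at hn
  exact ⟨n, hn⟩

end geo
end Pool.Agent.H.MP_d7b81d_co
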